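import Mathlib
import Pool.Agent.KMinDom.Basic
import Pool.Agent.KMinDom.Upper
import Pool.Agent.KMinDom.Lower
import Pool.Agent.KMinDom.Matrix

namespace Pool.Agent.Results.MP_213d49_co.AllKBounds

open Pool.Agent.KMinDom

/-- **Main result.** For every `k ≥ 2` the function `g(n,k)` has order of magnitude `n ^ 2`, and
the constant lies between `1 / (4 * k ^ 4 * 4 ^ k)` and `16 / (k ^ 2 * 4 ^ k)`. -/
theorem result (k : ℕ) (hk : 2 ≤ k) :
    (∀ n : ℕ, (n / (k ^ 2 * 2 ^ (k + 1))) ^ 2 ≤ g n k) ∧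
    (∃ C : ℝ, ∀ n : ℕ,
      (g n k : ℝ) ≤ (n : ℝ) ^ 2 / (k ^ 2 * 4 ^ (k - 2)) + C * (n : ℝ) ^ (3 / 2 : ℝ)) := by
  constructor
  · intro n
    obtain ⟨β, h1, h2⟩ := exists_matrix k (by omega)
    have hm : 2 ≤ k ^ 2 * 2 ^ k := by
      have h3 : 1 ≤ k ^ 2 := Nat.one_le_pow _ _ (by omega)
      have h4 : 2 ^ 1 ≤ 2 ^ k := Nat.pow_le_pow_right (by norm_num) (by omega)
      calc 2 = 1 * 2 ^ 1 := by norm_num
        _ ≤ k ^ 2 * 2 ^ k := Nat.mul_le_mul h3 h4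
    have h5 := lower_of_matrix β k hm h1 h2 n
    have h6 : 2 * (k ^ 2 * 2 ^ k) = k ^ 2 * 2 ^ (k + 1) := by
      rw [pow_succ]
      ring
    rwa [h6] at h5
  · refine ⟨2 ^ (k ^ 2 * 4 ^ (k - 2) + 1) * (k + 1), fun n => ?_⟩
    obtain ⟨G, X, Y, hX, hY, hg⟩ := exists_sets_g n k
    have h1 := upper_sets hk hX hY
    rw [Fintype.card_fin] at h1
    have h2 : (g n k : ℝ) = (X.card : ℝ) * Y.card := by
      rw [← hg]
      push_cast
      ring
    have h3 : (n : ℝ) * Real.sqrt n = (n : ℝ) ^ (3 / 2 : ℝ) := by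
      rcases Nat.eq_zero_or_pos n with hn | hn
      · subst hn
        norm_num
      · have hn' : (0 : ℝ) < n := by exact_mod_cast hn
        rw [Real.sqrt_eq_rpow]
        nth_rewrite 1 [← Real.rpow_one (n : ℝ)]
        rw [← Real.rpow_add hn']
        norm_num
    rw [h2, ← h3]
    exact h1

end Pool.Agent.Results.MP_213d49_co.AllKBounds
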