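import Mathlib
import Pool.Agent.KMinDom.Basic
import Pool.Agent.KMinDom.ThreeUpper
import Pool.Agent.KMinDom.ThreeLower

namespace Pool.Agent.Results.MP_213d49_co.KThreeAsymptotic

open Pool.Agent.KMinDom

/-- **Main result.** `g(n,3) = n ^ 2 / 96 + O(n ^ (15/8))`. -/
theorem result : ∃ C : ℝ, ∀ n : ℕ,
    |(g n 3 : ℝ) - (n : ℝ) ^ 2 / 96| ≤ C * (n : ℝ) ^ (15 / 8 : ℝ) := by
  refine ⟨51, fun n => ?_⟩
  rcases Nat.eq_zero_or_pos n with hn | hn
  · subst hn
    obtain ⟨G, X, Y, hX, hY, hg⟩ := exists_sets_g 0 3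
    have h1 : X.card = 0 := by
      have := Finset.card_le_univ X
      rw [Fintype.card_fin] at this
      omega
    rw [h1, zero_mul] at hg
    rw [← hg]
    norm_num
  have hn' : (0 : ℝ) < n := by exact_mod_cast hn
  have hn1 : (1 : ℝ) ≤ n := by exact_mod_cast hn
  set u : ℝ := (n : ℝ) ^ (1 / 8 : ℝ) with hu
  have hu1 : 1 ≤ u := Real.one_le_rpow hn1 (by norm_num)
  have hu8 : (n : ℝ) = u ^ 8 := by
    rw [hu, ← Real.rpow_natCast, ← Real.rpow_mul hn'.le]
    norm_num
  have hu15 : (n : ℝ) ^ (15 / 8 : ℝ) = u ^ 15 := by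
    rw [hu, ← Real.rpow_natCast, ← Real.rpow_mul hn'.le]
    norm_num
  rw [hu15, abs_le]
  constructor
  · -- lower bound
    have hn15 : (n : ℝ) ≤ u ^ 15 := by
      rw [hu8]
      exact pow_le_pow_right₀ hu1 (by norm_num)
    rcases Nat.lt_or_ge n 48 with h48 | h48
    · have h2 : (0 : ℝ) ≤ (g n 3 : ℝ) := by positivity
      have h3 : (n : ℝ) < 48 := by exact_mod_cast h48
      nlinarith
    · have h2 : ((6 * (n / 24) ^ 2 : ℕ) : ℝ) ≤ (g n 3 : ℝ) := by
        exact_mod_cast lower_three n h48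
      have h4 : (n : ℝ) ≤ 24 * ((n / 24 : ℕ) : ℝ) + 23 := by
        have : n ≤ 24 * (n / 24) + 23 := by omega
        exact_mod_cast this
      have h5 : 24 * (((n / 24 : ℕ) : ℝ)) ≤ n := by
        have : 24 * (n / 24) ≤ n := by omega
        exact_mod_cast this
      have h6 : (0 : ℝ) ≤ ((n / 24 : ℕ) : ℝ) := by positivity
      push_cast at h2
      nlinarith
  · obtain ⟨G, X, Y, hX, hY, hg⟩ := exists_sets_g n 3
    have h1 := upper_three hX hY u hu1 (by rw [Fintype.card_fin]; exact hu8)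
    rw [Fintype.card_fin] at h1
    have h2 : (g n 3 : ℝ) = (X.card : ℝ) * Y.card := by
      rw [← hg]
      push_cast
      ring
    rw [h2]
    linarith

end Pool.Agent.Results.MP_213d49_co.KThreeAsymptotic
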