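import Mathlib
import Pool.Agent.KMinDom.Basic
import Pool.Agent.KMinDom.Lower
import Pool.Agent.KMinDom.Two

namespace Pool.Agent.Results.MP_213d49_co.KTwoAsymptotic

open Pool.Agent.KMinDom

/-- **Main result.** `g(n,2) = n ^ 2 / 16 + O(n ^ (3/2))`. -/
theorem result : ∃ C : ℝ, ∀ n : ℕ,
    |(g n 2 : ℝ) - (n : ℝ) ^ 2 / 16| ≤ C * (n : ℝ) ^ (3 / 2 : ℝ) := by
  refine ⟨24, fun n => ?_⟩
  rcases Nat.eq_zero_or_pos n with hn | hn
  · subst hn
    obtain ⟨G, X, Y, hX, hY, hg⟩ := exists_sets_g 0 2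
    have h1 : X.card = 0 := by
      have := Finset.card_le_univ X
      rw [Fintype.card_fin] at this
      omega
    rw [h1, zero_mul] at hg
    rw [← hg]
    norm_num
  have hn' : (0 : ℝ) < n := by exact_mod_cast hn
  have h3 : (n : ℝ) * Real.sqrt n = (n : ℝ) ^ (3 / 2 : ℝ) := by
    rw [Real.sqrt_eq_rpow]
    nth_rewrite 1 [← Real.rpow_one (n : ℝ)]
    rw [← Real.rpow_add hn']
    norm_num
  rw [abs_le]
  constructor
  · -- lower bound
    have h1 := lower_of_matrix (k := 2) (m := 2) (fun i j => decide (i = j)) (by norm_num) ?_ ?_ n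
    · rw [show 2 * 2 = 4 from rfl] at h1
      have h2 : (((n / 4) ^ 2 : ℕ) : ℝ) ≤ (g n 2 : ℝ) := by exact_mod_cast h1
      have h4 : (n : ℝ) ≤ 4 * ((n / 4 : ℕ) : ℝ) + 3 := by
        have : n ≤ 4 * (n / 4) + 3 := by omega
        exact_mod_cast this
      have h5 : (((n / 4 : ℕ) : ℝ)) ≤ n := by exact_mod_cast Nat.div_le_self n 4
      have h6 : (0 : ℝ) ≤ ((n / 4 : ℕ) : ℝ) := by positivity
      push_cast at h2
      have h7 : (1 : ℝ) ≤ Real.sqrt n := by
        rw [Real.one_le_sqrt]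
        exact_mod_cast hn
      have h8 : (n : ℝ) ≤ n * Real.sqrt n := le_mul_of_one_le_right hn'.le h7
      have h9 : (1 : ℝ) ≤ n := by exact_mod_cast hn
      rw [← h3]
      nlinarith
    · decide
    · decide
  · obtain ⟨G, X, Y, hX, hY, hg⟩ := exists_sets_g n 2
    have h1 := upper_two hX hY
    rw [Fintype.card_fin] at h1
    have h2 : (g n 2 : ℝ) = (X.card : ℝ) * Y.card := by
      rw [← hg]
      push_cast
      ring
    rw [h2, ← h3]
    linarith

end Pool.Agent.Results.MP_213d49_co.KTwoAsymptotic
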