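import Mathlib
import Pool.Agent.KMinDom.Basic
import Pool.Agent.KMinDom.Lower
import Pool.Agent.KMinDom.Matrix
import Pool.Agent.KMinDom.Uniform

namespace Pool.Agent.Results.MP_213d49_co.UniformBounds

open Pool.Agent.KMinDom

/-- numerical inequality for the exact range -/
lemma numeric_six (k : ℕ) (hk : 6 ≤ k) : 4 * k * (k ^ 2 - 1) ≤ 2 ^ k * (3 * k - 1) := by
  obtain ⟨j, rfl⟩ : ∃ j, k = j + 6 := ⟨k - 6, by omega⟩
  clear hk
  have h1 : 4 * ((j + 6) * (j + 7)) ≤ 3 * 2 ^ (j + 6) := by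
    induction j with
    | zero => norm_num
    | succ i ih =>
      have h2 : 2 ^ (i + 1 + 6) = 2 * 2 ^ (i + 6) := by
        rw [show i + 1 + 6 = (i + 6) + 1 by ring, pow_succ]
        ring
      rw [h2]
      nlinarith
  have h4 : (j + 6) ^ 2 - 1 = (j + 5) * (j + 7) := by
    have : (j + 6) ^ 2 = (j + 5) * (j + 7) + 1 := by ring
    omega
  have h5 : 3 * (j + 6) - 1 = 3 * j + 17 := by omega
  rw [h4, h5]
  have h6 : 4 * ((j + 6) * (j + 7)) * (3 * j + 15) ≤ 3 * 2 ^ (j + 6) * (3 * j + 17) :=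
    Nat.mul_le_mul h1 (by omega)
  have h7 : 4 * ((j + 6) * (j + 7)) * (3 * j + 15) =
      3 * (4 * (j + 6) * ((j + 5) * (j + 7))) := by ring
  have h8 : 3 * 2 ^ (j + 6) * (3 * j + 17) = 3 * (2 ^ (j + 6) * (3 * j + 17)) := by ring
  rw [h7, h8] at h6
  exact Nat.le_of_mul_le_mul_left h6 (by norm_num)

/-- **Main result.** Bounds for `g(n,k)` that hold uniformly for all `k ≥ 2` and `n ≥ 1`, and the
exact value `g(n,k) = n` for all `n` with `2 k n ≤ 4 ^ (k-1)`. -/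
theorem result (n k : ℕ) (hk : 2 ≤ k) (hn : 1 ≤ n) :
    max n ((n / (k ^ 2 * 2 ^ (k + 1))) ^ 2) ≤ g n k ∧
    (g n k : ℝ) ≤ max (n : ℝ) (min (((k : ℝ) + 1) * ((n : ℝ) ^ 2 / (2 * 4 ^ (k - 1)) + (k - 1)))
      ((n : ℝ) ^ 2 / 4 ^ (k - 1) + 2 * n + ((k : ℝ) - 1) ^ 2)) ∧
    (2 * k * n ≤ 4 ^ (k - 1) → g n k = n) := by
  have hlow : n ≤ g n k := le_g_empty n k hn
  have hkR : (2 : ℝ) ≤ k := by exact_mod_cast hk
  have hnR : (1 : ℝ) ≤ n := by exact_mod_cast hn
  -- the key facts when `g n k > n`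
  have key : n < g n k → ∃ A B : ℝ, 2 ≤ A ∧ 2 ≤ B ∧ A * B ≤ (n : ℝ) ^ 2 / 4 ^ (k - 1) ∧
      (g n k : ℝ) = (A + (k - 1)) * (B + (k - 1)) ∧ k * (A + (k - 1)) ≤ n ∧
      k * (B + (k - 1)) ≤ n := by
    intro hlt
    obtain ⟨G, X, Y, hX, hY, hg⟩ := exists_sets_g n k
    have h1 : Fintype.card (Fin n) < X.card * Y.card := by
      rw [Fintype.card_fin, hg]
      exact hlt
    have h2 := large_of_product hk hX hY h1
    have h3 := large_of_product hk hY (by rwa [compl_compl]) (by rwa [mul_comm])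
    rw [Fintype.card_fin] at h2 h3
    have h4 := product_bound (by omega) hX hY (by omega)
    rw [Fintype.card_fin] at h4
    have h5 : ((k : ℝ) + 1) ≤ X.card := by exact_mod_cast h2.1
    have h6 : ((k : ℝ) + 1) ≤ Y.card := by exact_mod_cast h3.1
    refine ⟨X.card - (k - 1), Y.card - (k - 1), by linarith, by linarith, h4, ?_, ?_, ?_⟩
    · rw [← hg]
      push_cast
      ring
    · have : ((k * X.card : ℕ) : ℝ) ≤ n := by exact_mod_cast h2.2
      push_cast at this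
      linarith
    · have : ((k * Y.card : ℕ) : ℝ) ≤ n := by exact_mod_cast h3.2
      push_cast at this
      linarith
  refine ⟨?_, ?_, ?_⟩
  · refine max_le hlow ?_
    obtain ⟨β, h1, h2⟩ := exists_matrix k (by omega)
    have hm : 2 ≤ k ^ 2 * 2 ^ k := by
      have h3 : 1 ≤ k ^ 2 := Nat.one_le_pow _ _ (by omega)
      have h4 : 2 ^ 1 ≤ 2 ^ k := Nat.pow_le_pow_right (by norm_num) (by omega)
      calc 2 = 1 * 2 ^ 1 := by norm_num
        _ ≤ k ^ 2 * 2 ^ k := Nat.mul_le_mul h3 h4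
    have h5 := lower_of_matrix β k hm h1 h2 n
    have h6 : 2 * (k ^ 2 * 2 ^ k) = k ^ 2 * 2 ^ (k + 1) := by
      rw [pow_succ]
      ring
    rwa [h6] at h5
  · rcases Nat.lt_or_ge n (g n k) with hlt | hge
    · obtain ⟨A, B, hA, hB, hAB, hg, hAn, hBn⟩ := key hlt
      refine le_max_of_le_right (le_min ?_ ?_)
      · rw [hg]
        have h1 : A + B ≤ A * B / 2 + 2 := by nlinarith
        have h2 : (n : ℝ) ^ 2 / (2 * 4 ^ (k - 1)) = (n : ℝ) ^ 2 / 4 ^ (k - 1) / 2 := by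
          rw [mul_comm, div_div]
        rw [h2]
        nlinarith
      · rw [hg]
        have h1 : ((k : ℝ) - 1) * (A + B) ≤ 2 * n := by
          have h3 : (k : ℝ) * (A + B) ≤ 2 * n := by nlinarith
          nlinarith
        nlinarith
    · exact le_max_of_le_left (by exact_mod_cast hge)
  · intro hsmall
    by_contra hne
    have hlt : n < g n k := lt_of_le_of_ne hlow (Ne.symm hne)
    obtain ⟨A, B, hA, hB, hAB, hg, hAn, hBn⟩ := key hlt
    have h4pos : (0 : ℝ) < 4 ^ (k - 1) := by positivity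
    set M : ℝ := (n : ℝ) ^ 2 / 4 ^ (k - 1) with hM
    have hsm : 2 * (k : ℝ) * n ≤ 4 ^ (k - 1) := by exact_mod_cast hsmall
    have hMn : M * (2 * k) ≤ n := by
      rw [hM, div_mul_eq_mul_div, div_le_iff₀ h4pos]
      nlinarith
    have hM4 : 4 ≤ M := by nlinarith
    -- n ≥ 2 ^ k
    have h2k : (2 : ℝ) ^ k ≤ n := by
      have h5 : 4 * (4 : ℝ) ^ (k - 1) ≤ (n : ℝ) ^ 2 := by
        rw [hM, le_div_iff₀ h4pos] at hM4
        exact hM4
      have h6 : 4 * (4 : ℝ) ^ (k - 1) = (2 ^ k) ^ 2 := by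
        rw [← pow_succ', show k - 1 + 1 = k by omega, show (4 : ℝ) = 2 ^ 2 by norm_num,
          ← pow_mul, ← pow_mul, mul_comm]
      rw [h6] at h5
      exact le_of_sq_le_sq h5 (by linarith)
    have h2kN : 2 ^ k ≤ n := by exact_mod_cast h2k
    have hk6 : 6 ≤ k := by
      by_contra hcon
      have h7 : 2 * k * 2 ^ k ≤ 4 ^ (k - 1) := (Nat.mul_le_mul_left _ h2kN).trans hsmall
      interval_cases k <;> norm_num at h7
    have h8 := numeric_six k hk6
    have h9 : (4 * (k : ℝ) * ((k : ℝ) ^ 2 - 1)) ≤ 2 ^ k * (3 * k - 1) := by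
      have h10 : ((4 * k * (k ^ 2 - 1) : ℕ) : ℝ) ≤ ((2 ^ k * (3 * k - 1) : ℕ) : ℝ) := by
        exact_mod_cast h8
      have h11 : 1 ≤ k ^ 2 := Nat.one_le_pow _ _ (by omega)
      rw [Nat.cast_mul, Nat.cast_mul, Nat.cast_sub h11, Nat.cast_mul, Nat.cast_sub (by omega)]
        at h10
      push_cast at h10
      exact h10
    have h12 : (g n k : ℝ) ≤ (k + 1) * (M / 2 + (k - 1)) := by
      rw [hg]
      have h1 : A + B ≤ A * B / 2 + 2 := by nlinarith
      nlinarith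
    have h13 : (n : ℝ) < g n k := by exact_mod_cast hlt
    have h14 : (n : ℝ) < (k + 1) * (M / 2 + (k - 1)) := lt_of_lt_of_le h13 h12
    have h15 : 4 * (k : ℝ) * n < (k + 1) * (n + 4 * k * (k - 1)) := by
      have : 4 * (k : ℝ) * n < 4 * k * ((k + 1) * (M / 2 + (k - 1))) :=
        mul_lt_mul_of_pos_left h14 (by linarith)
      nlinarith
    nlinarith

end Pool.Agent.Results.MP_213d49_co.UniformBounds
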